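import Pool.Agent.E8helper50.SR.S4
import Pool.Agent.E8helper51.SR.FIN

/-!
# Project SR (helper50), MP_1a662b_al: piece FN2
-/

set_option autoImplicit false

universe u

namespace Pool.Agent.E8helper7.SR

open Pool.Agent.E8helper50.SR Pool.Agent.E8helper51.SR

theorem gen_of_mainRS {F : Type u} [Field F] (A : SAlg F) {r s : ℕ} (h : MainRS A r s) :
    Gen (Id A) r s := by
  intro f
  constructor
  · intro hf
    by_contra hc
    obtain ⟨M, hM, x, hx, w, hw⟩ := h f hc
    apply hw
    have h1 := hf (fun i => wpar (w i)) (fun i => MonoidAlgebra.single (w i) 1)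
      (fun i => Submodule.subset_span ⟨w i, rfl, rfl⟩) M (fun g hg => hM g hg) x hx
    rw [wev_sev] at h1
    simp only [wev_single] at h1
    exact h1
  · intro hf p w hw B hB x hx
    rw [wev_sev]
    exact hB f hf p _ (fun i => wev_mem B x hx _ _ (hw i))

theorem t_FN2 : S_MF2.{u} → S_FN2.{u} := by
  intro h F _ A _
  obtain ⟨N, hN⟩ := h F A
  exact ⟨N, gen_of_mainRS A hN⟩

end Pool.Agent.E8helper7.SR
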